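import Pool.Agent.Q266.RPB.Fin

/-!
# MP_6bdd40_al: a bound for all characters of degree at least p^2 of finite p-groups, p odd
-/

namespace Pool.Agent.Results.MP_6bdd40_al.OrderTimesDegree

open Pool.Agent.Q266.RP Pool.Agent.Q266.RPB

/-- Let `p` be an odd prime, `P` a finite `p`-group, `ρ` an irreducible complex representation of
`P` of dimension `d ≥ p ^ 2`, and let the trace of `ρ x` be nonzero.  Then `p ^ 2 * d * o(x)`
divides `|P|`. -/
theorem result (p : ℕ) [Fact p.Prime] (hp : p ≠ 2) (P : Type) [Group P] [Finite P]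
    (hP : IsPGroup p P) (V : Type) [AddCommGroup V] [Module ℂ V] [FiniteDimensional ℂ V]
    (ρ : Representation ℂ P V) (hρ : Irr ρ) (hd : p ^ 2 ≤ Module.finrank ℂ V) (x : P)
    (hx : LinearMap.trace ℂ V (ρ x) ≠ 0) :
    p ^ 2 * Module.finrank ℂ V * orderOf x ∣ Nat.card P := by
  have hpr : p.Prime := Fact.out
  obtain ⟨n, hn⟩ := deg_pow p hp P V ρ hP hρ
  rw [hn] at hd
  have h2 : 2 ≤ n := (Nat.pow_le_pow_iff_right hpr.one_lt).1 hd
  obtain ⟨k, rfl⟩ : ∃ k, n = k + 2 := ⟨n - 2, by omega⟩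
  have h3 := f_gen p hp P V ρ hP hρ k hn x hx
  rw [hn] at h3 ⊢
  have h4 : orderOf x * (p ^ (k + 2)) ^ 2 = p ^ k * (p ^ 2 * p ^ (k + 2) * orderOf x) := by ring
  rw [h4] at h3
  exact Nat.dvd_of_mul_dvd_mul_left (pow_pos hpr.pos k) h3

end Pool.Agent.Results.MP_6bdd40_al.OrderTimesDegree
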