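import Pool.Agent.Q266.RPB.Fin
import Pool.Agent.Q277.RP.STEP
import Pool.Agent.Q25.RPC.Csub
import Pool.Agent.Q181.RPC.Ccomm
import Pool.Agent.Q71.RPC.Xuc
import Pool.Agent.Q110.RPC.Mainc
import Pool.Agent.Q266.RPB.Clp

/-!
# MP_6bdd40_al: orders of elements at nonzero character values when the subgroups of P / ker chi
generated by two conjugate elements are regular, in particular for nilpotency class at most p
-/

namespace Pool.Agent.Results.MP_6bdd40_al.RegularGroups

open Pool.Agent.Q266.RP Pool.Agent.Q266.RPB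

/-- Let `p` be an odd prime, `P` a finite `p`-group, `ρ` an irreducible complex representation of
`P`, and suppose that in `P / ker ρ` every subgroup generated by two conjugate elements is regular
(P. Hall), or that `P / ker ρ` has nilpotency class at most `p`.  If the trace of `ρ x` is not
zero, then `(dim ρ) ^ 2` divides `|P|` and the order of `x` divides `|P| / (dim ρ) ^ 2`. -/
theorem result (p : ℕ) [Fact p.Prime] (hp : p ≠ 2) (P : Type) [Group P] [Finite P]
    (hP : IsPGroup p P) (V : Type) [AddCommGroup V] [Module ℂ V] [FiniteDimensional ℂ V]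
    (ρ : Representation ℂ P V) (hρ : Irr ρ)
    (hreg : CRegular p (P ⧸ MonoidHom.ker ρ) ∨
      (⊤ : Subgroup (P ⧸ MonoidHom.ker ρ)).lowerCentralSeries p = ⊥)
    (x : P) (hx : LinearMap.trace ℂ V (ρ x) ≠ 0) :
    Module.finrank ℂ V ^ 2 ∣ Nat.card P ∧ orderOf x ∣ Nat.card P / Module.finrank ℂ V ^ 2 := by
  have hmain : S_MAINC := Pool.Agent.Q110.RPC.mainc Pool.Agent.Q25.RPC.csub0
    (Pool.Agent.Q181.RPC.ccomm f_fall) f_odd f_ord Pool.Agent.Q71.RPC.xuc f_schur f_trz f_desc
    (Pool.Agent.Q277.RP.step f_desc Pool.Agent.Q295.RP.eig f_trz Pool.Agent.Q204.RP.cardc)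
  have hclp : S_CLP := clp Pool.Agent.Q109.RP.ncl f_clreg
  have hr : CRegular p (P ⧸ MonoidHom.ker ρ) := by
    rcases hreg with h | h
    · exact h
    · exact hclp p _ h
  obtain ⟨σ, hσ, hσ2⟩ := f_desc.2 P V ρ (MonoidHom.ker ρ) hρ (fun n hn => hn)
  have h1 := hmain p hp (P ⧸ MonoidHom.ker ρ) V σ (hP.to_quotient _) hr hσ (QuotientGroup.mk x)
    (by rw [hσ2]; exact hx)
  have ho := f_ord.1 P (MonoidHom.ker ρ) x
  have hcd := Subgroup.card_eq_card_quotient_mul_card_subgroup (MonoidHom.ker ρ)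
  have h : orderOf x * Module.finrank ℂ V ^ 2 ∣ Nat.card P := by
    rw [hcd]
    refine dvd_trans (Nat.mul_dvd_mul_right ho _) ?_
    have h3 : orderOf (QuotientGroup.mk x : P ⧸ MonoidHom.ker ρ) *
        Nat.card (MonoidHom.ker ρ) * Module.finrank ℂ V ^ 2 =
        orderOf (QuotientGroup.mk x : P ⧸ MonoidHom.ker ρ) * Module.finrank ℂ V ^ 2 *
        Nat.card (MonoidHom.ker ρ) := by ring
    rw [h3]
    exact Nat.mul_dvd_mul_right h1 _
  exact ⟨(Dvd.intro_left _ rfl).trans h, Nat.dvd_div_of_mul_dvd (by rwa [mul_comm] at h)⟩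

end Pool.Agent.Results.MP_6bdd40_al.RegularGroups
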