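import Pool.Agent.Q266.RPB.Fin

/-!
# MP_6bdd40_al: what a counterexample must satisfy (arbitrary finite p-groups, p odd)
-/

namespace Pool.Agent.Results.MP_6bdd40_al.SmallDegreeOrOrder

open Pool.Agent.Q266.RP Pool.Agent.Q266.RPB

/-- Let `p` be an odd prime, `P` a finite `p`-group, `ρ` an irreducible complex representation of
`P` of dimension `d`, and let the trace of `ρ x` be nonzero.  Then `d ^ 2` divides `|P|`, and if the
order of `x` does not divide `|P| / d ^ 2` then `d ≥ p ^ 3`, `o(x) ≥ p ^ 3`, `|P| ≥ p ^ 8`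
and no power of `x` acts as a scalar different from `1`. -/
theorem result (p : ℕ) [Fact p.Prime] (hp : p ≠ 2) (P : Type) [Group P] [Finite P]
    (hP : IsPGroup p P) (V : Type) [AddCommGroup V] [Module ℂ V] [FiniteDimensional ℂ V]
    (ρ : Representation ℂ P V) (hρ : Irr ρ) (x : P) (hx : LinearMap.trace ℂ V (ρ x) ≠ 0) :
    Module.finrank ℂ V ^ 2 ∣ Nat.card P ∧
    (¬ orderOf x ∣ Nat.card P / Module.finrank ℂ V ^ 2 →
      p ^ 3 ≤ Module.finrank ℂ V ∧ p ^ 3 ≤ orderOf x ∧ p ^ 8 ≤ Nat.card P ∧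
      ∀ (k : ℕ) (c : ℂ), (∀ v, ρ (x ^ k) v = c • v) → c = 1) := by
  have hpr : p.Prime := Fact.out
  have hd := f_div p hp P V ρ hP hρ
  refine ⟨hd.1, fun hno => ?_⟩
  have hno2 : ¬ orderOf x * (Module.finrank ℂ V) ^ 2 ∣ Nat.card P := fun h =>
    hno (Nat.dvd_div_of_mul_dvd (by rwa [mul_comm] at h))
  obtain ⟨n, hn⟩ := deg_pow p hp P V ρ hP hρ
  have h3 : 3 ≤ n := by
    by_contra hlt
    have hlt2 : n < 3 := by omega
    interval_cases n
    · rw [hn] at hno2
      exact hno2 (by simpa using orderOf_dvd_natCard x)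
    · exact hno2 (f_dega p hp P V ρ hP hρ (by simpa using hn) x hx)
    · exact hno2 (f_degb p hp P V ρ hP hρ hn x hx)
  have hfr : p ^ 3 ≤ Module.finrank ℂ V := by
    rw [hn]
    exact Nat.pow_le_pow_right hpr.pos h3
  refine ⟨hfr, ?_, ?_, ?_⟩
  · obtain ⟨m, hm⟩ := hP x
    obtain ⟨i, _, hi⟩ := (Nat.dvd_prime_pow hpr).1 (orderOf_dvd_of_pow_eq_one hm)
    rw [hi]
    refine Nat.pow_le_pow_right hpr.pos ?_
    by_contra hlt
    refine hno2 (f_ordtwo p hp P V ρ hP hρ x hx ?_)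
    rw [← orderOf_dvd_iff_pow_eq_one, hi]
    exact Nat.pow_dvd_pow p (by omega)
  · have hnt : Nontrivial P := by
      by_contra h
      have hs : Subsingleton P := not_nontrivial_iff_subsingleton.1 h
      apply hno2
      rw [Subsingleton.elim x 1, orderOf_one, one_mul]
      exact hd.1
    obtain ⟨q, hq⟩ := hd.2 hnt
    obtain ⟨N, hN⟩ := (IsPGroup.iff_card (G := P)).1 hP
    have hqd : q ∣ p ^ N := ⟨p * Module.finrank ℂ V ^ 2, by rw [← hN, hq]; ring⟩
    obtain ⟨a, -, ha⟩ := (Nat.dvd_prime_pow hpr).1 hqd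
    have ha1 : 1 ≤ a := by
      by_contra h
      have ha0 : a = 0 := by omega
      rw [ha0, pow_zero] at ha
      rw [ha, mul_one] at hq
      exact hno2 (qone p hp P V ρ hP hρ x hx hq)
    rw [hq, ha]
    calc p ^ 8 = p * (p ^ 3) ^ 2 * p ^ 1 := by ring
      _ ≤ p * Module.finrank ℂ V ^ 2 * p ^ a :=
        Nat.mul_le_mul (Nat.mul_le_mul_left _ (Nat.pow_le_pow_left hfr 2))
          (Nat.pow_le_pow_right hpr.pos ha1)
  · intro k c hc
    by_contra hc1
    exact hno2 (f_scal p hp P V ρ hP hρ x hx ⟨k, c, hc1, hc⟩)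

end Pool.Agent.Results.MP_6bdd40_al.SmallDegreeOrOrder
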